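import Pool.Agent.Helper78.MG.Goals

/-!
# The value and the size of the decision list
-/

namespace Pool.Agent.Helper56.MG

open Pool.Agent.Helper78.DT Pool.Agent.Helper78.MG

lemma val_rep {m : ℕ} (r : Fin m → Bool) (k : ℕ) :
    DList.val r (List.replicate k (([] : List (ℕ × Bool)), false)) = false := by
  cases k with
  | zero => rfl
  | succ k =>
    rw [List.replicate_succ]
    unfold DList.val
    rw [if_pos (by intro p hp; exact absurd hp (List.not_mem_nil))]

lemma val_map {m : ℕ} (r : Fin m → Bool) {β : Type} (T : β → List (ℕ × Bool)) (L : DList)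
    (hL : DList.val r L = false) (Y : List β) :
    DList.val r ((Y.map fun v => (T v, true)) ++ L) = true ↔
      ∃ v ∈ Y, ∀ p ∈ T v, coin r p.1 = p.2 := by
  induction Y with
  | nil =>
    rw [List.map_nil, List.nil_append, hL]
    simp
  | cons a Y ih =>
    rw [List.map_cons, List.cons_append]
    unfold DList.val
    by_cases h : ∀ p ∈ T a, coin r p.1 = p.2
    · rw [if_pos (show ∀ p ∈ (T a, true).1,
        (if h : p.1 < m then r ⟨p.1, h⟩ else false) = p.2 from h)]
      exact ⟨fun _ => ⟨a, List.mem_cons_self, h⟩, fun _ => rfl⟩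
    · rw [if_neg (show ¬ ∀ p ∈ (T a, true).1,
        (if h : p.1 < m then r ⟨p.1, h⟩ else false) = p.2 from h), ih]
      constructor
      · rintro ⟨v, hv, h'⟩
        exact ⟨v, List.mem_cons_of_mem _ hv, h'⟩
      · rintro ⟨v, hv, h'⟩
        rcases List.mem_cons.1 hv with rfl | hv
        · exact absurd h' h
        · exact ⟨v, hv, h'⟩

theorem dlv : Pool.Agent.Helper78.MG.DlvStmt := by
  intro act x u Y m
  constructor
  · intro r
    unfold dl
    rw [val_map r (fun v : List Bool × List Bool => trm act x u v.1 v.2) _ (val_rep r _) Y]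
    refine exists_congr fun v => and_congr_right fun _ => ?_
    unfold trm
    constructor
    · intro h k hk
      have h1 := h (act (x, u, v.1, v.2.take k) - 2, v.2.getD k false)
        (List.mem_map.2 ⟨k, List.mem_range.2 hk, rfl⟩)
      rw [List.getD_eq_getElem _ _ hk] at h1
      exact h1.symm
    · intro h p hp
      obtain ⟨k, hk, rfl⟩ := List.mem_map.1 hp
      have hk' := List.mem_range.1 hk
      have h1 := h k hk'
      show coin r (act (x, u, v.1, v.2.take k) - 2) = v.2.getD k false
      rw [List.getD_eq_getElem _ _ hk', h1]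
  · unfold dsize dl
    show x.length ≤ m + _
    rw [List.map_append, List.sum_append, List.map_replicate, List.sum_replicate]
    simp only [List.length_nil, Nat.zero_add, smul_eq_mul, mul_one]
    omega

end Pool.Agent.Helper56.MG
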